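import Mathlib
import Pool.Agent.Helper9.NS
import Pool.Agent.Helper70.BQ.Data
import Pool.Agent.Helper70.BQ.Defs
import Pool.Agent.Helper70.VP.Ram
import Pool.Agent.Helper83.VF.Res

/-!
# Places where the eigenfunction ramifies are fixed by an element with nontrivial character
-/

set_option autoImplicit false

namespace BQ

open VC VQ VP VF Function IntermediateField

universe u

namespace R

open Polynomial IsDedekindDomain

variable {k F : Type u} [Field k] [IsAlgClosed k] [CharZero k] [Field F] [Algebra k F]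
  (hF : IsFunctionField k F) (V : Subgroup (F ≃ₐ[k] F)) [Finite V]

/-- A function regular on the orbit of `P`, not zero at `P` and zero at the other points of the
orbit. -/
theorem exists_sep (P : Place k F) :
    ∃ b : F, (∀ σ : V, σ.1 b ∈ P.ring) ∧ b ∉ P.ring.nonunits ∧
      ∀ σ : V, act hF σ.1 P ≠ P → σ.1 b ∈ P.ring.nonunits := by
  classical
  have : Fintype V := Fintype.ofFinite V
  have hE := isFunctionField_fixed V hF
  obtain ⟨x, hxE, hx⟩ : ∃ x ∈ IntermediateField.fixedField V, x ∉ P.ring := by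
    by_contra hcon
    push Not at hcon
    apply comap_ne_top hE hF (IsScalarTower.toAlgHom k (IntermediateField.fixedField V) F) P.ring
      P.ne_top
    rw [eq_top_iff]
    intro y _
    exact hcon y.1 y.2
  have hx0 : x ≠ 0 := by
    rintro rfl
    exact hx P.ring.zero_mem
  obtain ⟨t, htdef⟩ : ∃ t, t = x⁻¹ := ⟨_, rfl⟩
  have htE : t ∈ IntermediateField.fixedField V := by rw [htdef]; exact inv_mem hxE
  have htfix : ∀ σ : V, σ.1 t = t := fun σ => htE σ
  have ht : t ∈ P.ring.nonunits := by
    rw [htdef, ValuationSubring.inv_mem_nonunits_iff]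
    exact Or.inr hx
  have htr : Transcendental k t := transcendental_of_mem_nonunits P (by
    rw [htdef]; exact inv_ne_zero hx0) ht
  have hfin := hF.finiteDimensional htr
  let i1 : Algebra k[X] F := polyAlg t
  let i3 : Algebra (RatFunc k) F := ratAlg t htr
  have s1 : IsScalarTower k k[X] F := IsScalarTower.of_algebraMap_eq (fun x =>
    (aeval t : k[X] →ₐ[k] F).commutes x |>.symm)
  have s3 : IsScalarTower k[X] (RatFunc k) F := IsScalarTower.of_algebraMap_eq (fun x =>
    (ratAlg_poly t htr x).symm)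
  have f1 : FiniteDimensional (RatFunc k) F := finiteDimensional_ratAlg t htr hfin
  have hc0 : CharZero (RatFunc k) :=
    charZero_of_injective_algebraMap (algebraMap k (RatFunc k)).injective
  have hBd : IsDedekindDomain (integralClosure k[X] F) :=
    integralClosure.isDedekindDomain k[X] (RatFunc k) F
  have hBf : IsFractionRing (integralClosure k[X] F) F :=
    integralClosure.isFractionRing_of_finite_extension (RatFunc k) F
  have f1 : FaithfulSMul k[X] (integralClosure k[X] F) := by
    rw [faithfulSMul_iff_algebraMap_injective]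
    intro x y hxy
    have h := congrArg (algebraMap (integralClosure k[X] F) F) hxy
    rw [← IsScalarTower.algebraMap_apply, ← IsScalarTower.algebraMap_apply,
      IsScalarTower.algebraMap_apply k[X] (RatFunc k) F,
      IsScalarTower.algebraMap_apply k[X] (RatFunc k) F] at h
    exact IsFractionRing.injective k[X] (RatFunc k) ((algebraMap (RatFunc k) F).injective h)
  have hX : algebraMap k[X] F X = t := by
    change aeval t X = t
    simp
  have hov : ∀ σ : V, OverZero (act hF σ.1 P) := by
    intro σ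
    unfold OverZero
    rw [hX]
    change _ ∈ (P.ring.comap _).nonunits
    rw [mem_nonunits_comap]
    change σ.1 t ∈ _
    rw [htfix]
    exact ht
  have hovP : OverZero P := by
    unfold OverZero
    rw [hX]
    exact ht
  set Q : V → Ideal (integralClosure k[X] F) := fun σ => center (integralClosure k[X] F) _ (hov σ)
    with hQ
  set Q' := center (integralClosure k[X] F) P hovP with hQ'
  have hQp : ∀ σ, (Q σ).IsPrime := fun σ => by rw [hQ]; infer_instance
  have hQ'p : Q'.IsPrime := by rw [hQ']; infer_instance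
  have hQm : ∀ σ, (Q σ).IsMaximal := fun σ =>
    (hQp σ).isMaximal (center_ne_bot (integralClosure k[X] F) _ (hov σ))
  have hex : ∀ σ : V, act hF σ.1 P ≠ P → ∃ b ∈ Q σ, b ∉ Q' := by
    intro σ hσ
    by_contra hcon
    push Not at hcon
    have heq : Q σ = Q' := (hQm σ).eq_of_le hQ'p.ne_top hcon
    exact hσ (center_injective (integralClosure k[X] F) _ _ (hov σ) hovP heq)
  have hex' : ∀ σ : V, ∃ b : integralClosure k[X] F, (act hF σ.1 P ≠ P → b ∈ Q σ) ∧ b ∉ Q' := by
    intro σ
    by_cases hσ : act hF σ.1 P ≠ P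
    · obtain ⟨b, hb1, hb2⟩ := hex σ hσ
      exact ⟨b, fun _ => hb1, hb2⟩
    · exact ⟨1, fun h => absurd h hσ, fun h => hQ'p.ne_top ((Ideal.eq_top_iff_one _).2 h)⟩
  choose c hc1 hc2 using hex'
  refine ⟨((∏ σ, c σ : integralClosure k[X] F) : F), ?_, ?_, ?_⟩
  · intro σ
    have h1 : ((∏ σ, c σ : integralClosure k[X] F) : F) ∈ (act hF σ.1 P).ring :=
      integral_mem _ (hov σ) _ (∏ σ, c σ : integralClosure k[X] F).2
    exact h1
  · intro h
    have h1 : (∏ σ, c σ) ∈ Q' := by
      rw [hQ', mem_center]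
      exact h
    obtain ⟨σ, -, hσ⟩ := (Ideal.IsPrime.prod_mem_iff (hp := hQ'p)).1 h1
    exact hc2 σ hσ
  · intro σ hσ
    have h1 : (∏ τ, c τ) ∈ Q σ := Ideal.mem_of_dvd _ (Finset.dvd_prod_of_mem c (Finset.mem_univ σ))
      (hc1 σ hσ)
    rw [hQ] at h1
    simp only at h1
    rw [mem_center] at h1
    change _ ∈ (P.ring.comap _).nonunits at h1
    rw [mem_nonunits_comap] at h1
    exact h1

end R

section R
variable {k E : Type u} [Field k] [IsAlgClosed k] [CharZero k] [Field E] [Algebra k E]
  (hE : IsFunctionField k E) {W : Type*} [Group W] [Finite W] {a : W →* (E ≃ₐ[k] E)} {χ : W →* kˣ}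
  {y : E}

set_option linter.unusedVariables false in
theorem exists_stab (hy : IsEig a χ y) {m : ℕ} (hm0 : 0 < m) (hm : ∀ w, χ w ^ m = 1)
    (P : Place k E) (h : hy.loc hm (resF hE a.range P) ≠ 0) :
    ∃ w : W, χ w ≠ 1 ∧ act hE (a w) P = P := by
  classical
  by_contra hcon
  push Not at hcon
  have hst : ∀ w, act hE (a w) P = P → χ w = 1 := by
    intro w hw
    by_contra h1
    exact hcon w h1 hw
  apply h
  have : Fintype W := Fintype.ofFinite W
  obtain ⟨b, hb1, hb2, hb3⟩ := R.exists_sep hE a.range P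
  have hb1' : ∀ w : W, a w b ∈ P.ring := fun w => hb1 ⟨a w, w, rfl⟩
  have hb3' : ∀ w : W, act hE (a w) P ≠ P → a w b ∈ P.ring.nonunits :=
    fun w => hb3 ⟨a w, w, rfl⟩
  have hbP : b ∈ P.ring := by
    have := hb1' 1
    rwa [map_one] at this
  obtain ⟨c, hc⟩ := exists_res hE hbP
  have hc0 : c ≠ 0 := by
    rintro rfl
    exact hb2 (isRes_zero_iff.1 hc)
  -- the values of the conjugates
  have hval : ∀ w : W, IsRes P (algebraMap k E ((χ w)⁻¹ : kˣ) * a w b)
      (if act hE (a w) P = P then c else 0) := by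
    intro w
    split_ifs with hw
    · rw [hst w hw]
      simp only [inv_one, Units.val_one, map_one, one_mul]
      have h1 : b - algebraMap k E c ∈ (act hE (a w) P).ring.nonunits := by rw [hw]; exact hc
      change _ ∈ (P.ring.comap _).nonunits at h1
      rw [mem_nonunits_comap] at h1
      change a w (b - algebraMap k E c) ∈ _ at h1
      rw [map_sub, AlgEquiv.commutes] at h1
      exact h1
    · have h1 := (isRes_const (v := P) (((χ w)⁻¹ : kˣ) : k)).mul
        (isRes_zero_iff.2 (hb3' w hw))
      rwa [mul_zero] at h1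
  set y' : E := ∑ w : W, algebraMap k E ((χ w)⁻¹ : kˣ) * a w b with hy'
  have hres : IsRes P y' (∑ w : W, if act hE (a w) P = P then c else 0) :=
    IsRes.sum _ fun w _ => hval w
  have hsum : (∑ w : W, if act hE (a w) P = P then c else 0) ≠ 0 := by
    rw [← Finset.sum_filter, Finset.sum_const, nsmul_eq_mul]
    refine mul_ne_zero ?_ hc0
    rw [Nat.cast_ne_zero, Finset.card_ne_zero]
    exact ⟨1, by simp [act_one]⟩
  obtain ⟨hy'0, hy'inv⟩ := hres.inv_mem hsum
  have hord' : ord P.ring y' = 0 := by
    have h1 := (ord_nonneg_iff hE P hy'0).2 hres.mem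
    have h2 := (ord_nonneg_iff hE P (inv_ne_zero hy'0)).2 hy'inv
    rw [ord_inv hE P hy'0] at h2
    omega
  have heig : ∀ w : W, a w y' = algebraMap k E (χ w : k) * y' := by
    intro w
    rw [hy', map_sum, Finset.mul_sum]
    refine Fintype.sum_equiv (Equiv.mulLeft w) _ _ fun v => ?_
    rw [Equiv.coe_mulLeft, map_mul, AlgEquiv.commutes, map_mul a, ← mul_assoc, ← map_mul,
      map_mul χ]
    congr 2
    rw [mul_inv, Units.val_mul, ← mul_assoc, Units.mul_inv, one_mul]
  -- the quotient
  have hg : y' * y⁻¹ ∈ fixedField a.range := by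
    rintro ⟨_, w, rfl⟩
    change a w (y' * y⁻¹) = y' * y⁻¹
    rw [map_mul, map_inv₀, heig, hy.eq, mul_inv]
    have hχ : algebraMap k E (χ w : k) ≠ 0 :=
      (_root_.map_ne_zero _).mpr (Units.ne_zero _)
    field_simp
  have hg0 : (⟨y' * y⁻¹, hg⟩ : fixedField a.range) ≠ 0 := by
    intro h0
    exact mul_ne_zero hy'0 (inv_ne_zero hy.ne) (congrArg Subtype.val h0)
  set g : fixedField a.range := ⟨y' * y⁻¹, hg⟩ with hgdef
  obtain ⟨e, he, hord⟩ := ord_resF hE a.range P
  have hpw0 := hy.pw_ne_zero hm
  have hE2 := isFunctionField_fixed a.range hE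
  have h1 : ord P.ring ((hy.pw hm * g ^ m : fixedField a.range) : E) = 0 := by
    have e1 : ((hy.pw hm * g ^ m : fixedField a.range) : E) = y' ^ m := by
      change y ^ m * (y' * y⁻¹) ^ m = y' ^ m
      rw [← mul_pow]
      congr 1
      field_simp [hy.ne]
    rw [e1, ord_pow hE P hy'0, hord', mul_zero]
  rw [hord _ (mul_ne_zero hpw0 (pow_ne_zero _ hg0)), ord_mul hE2 _ hpw0 (pow_ne_zero _ hg0),
    ord_pow hE2 _ hg0] at h1
  have h2 := (mul_eq_zero.1 h1).resolve_left he.ne'
  have h3 : ord (resF hE a.range P).ring (hy.pw hm) =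
      (m : ℤ) * (- ord (resF hE a.range P).ring g) := by linarith
  unfold IsEig.loc
  rw [h3]
  simp

end R

end BQ
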