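import Pool.Agent.Helper34.BQ.NoSub
import Pool.Agent.Helper40.BQ.F1
import Pool.Agent.Helper82.BQ.D4

/-! MP_986e36_gt, block F2: the final contradiction. -/

open Set Metric

namespace Helper99.BQ

variable {K : Type*} [Group K] [MetricSpace K] {E : Type*} [NormedAddCommGroup E]
  [InnerProductSpace ℝ E] {R : Type*} [MetricSpace R]

/-- F2 -/
theorem no_submetry [CompactSpace K] [FiniteDimensional ℝ E] (hK : BiInv K) (e : ExpMap K E)
    (T : Torus e.toPreExp) (F : GeoFamily R) (p : K → R) (hp : Submetry p) (h1 : p 1 = F.x₀) :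
    False :=
  no_submetry_of hK e T F p hp h1 (fun c h0 geo uniq => exists_lift hK e p hp c h0 geo uniq)
    (fun L _ hL x _ hε T' => exists_recurrence L hL x hε T')
    (fun L _ hL hc => exists_linear_parts L hL hc)

end Helper99.BQ
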