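import Pool.Agent.Helper99.BQ.Defs

/-!
MP_986e36_gt, block F2: the final contradiction, with the results of the blocks F1 and D4 as
hypotheses (for the special cases that are needed).
-/

open scoped Manifold ContDiff Quaternion ENNReal Topology
open Bundle Set Metric

noncomputable section

namespace Helper99.BQ

section F
variable {K : Type*} [Group K] [MetricSpace K] {E : Type*} [NormedAddCommGroup E]
  [InnerProductSpace ℝ E] {R : Type*} [MetricSpace R]

theorem F2h.exp_zero (e : PreExp K E) : e.exp 0 = 1 := by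
  have h := e.add 0 0 0
  simp only [add_zero, smul_zero] at h
  exact (mul_eq_left.1 h.symm)

theorem F2h.dist_conj (hK : BiInv K) (k x : K) : dist 1 (k⁻¹ * x * k) = dist 1 x := by
  have h : (1 : K) = k⁻¹ * 1 * k := by simp
  conv_lhs => rw [h]
  rw [hK.right, hK.left]

/-- the lattice of `T.t × ℝ³` -/
def latt (e : PreExp K E) (T : Torus e) : AddSubgroup (T.t × (Fin 3 → ℝ)) where
  carrier := {x | e.exp (x.1 : E) = 1 ∧ ∃ k : Fin 3 → ℤ, ∀ i, x.2 i = 2 * Real.pi * k i}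
  zero_mem' := by
    refine ⟨by simpa using F2h.exp_zero e, 0, fun i => by simp⟩
  add_mem' := by
    rintro x y ⟨hx, kx, hx2⟩ ⟨hy, ky, hy2⟩
    refine ⟨?_, kx + ky, fun i => ?_⟩
    · have h := T.add x.1 x.1.2 y.1 y.1.2
      have h2 : (((x + y).1 : T.t) : E) = (x.1 : E) + (y.1 : E) := rfl
      rw [h2, h, hx, hy, one_mul]
    · have h2 : (x + y).2 i = x.2 i + y.2 i := rfl
      rw [h2, hx2, hy2]
      simp only [Pi.add_apply, Int.cast_add]
      ring
  neg_mem' := by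
    rintro x ⟨hx, kx, hx2⟩
    refine ⟨?_, -kx, fun i => ?_⟩
    · have h := T.add x.1 x.1.2 (-(x.1 : E)) (T.t.neg_mem x.1.2)
      have h2 : (((-x).1 : T.t) : E) = -(x.1 : E) := rfl
      rw [h2]
      rw [add_neg_cancel, F2h.exp_zero e, hx, one_mul] at h
      exact h.symm
    · have h2 : (-x).2 i = -(x.2 i) := rfl
      rw [h2, hx2]
      simp only [Pi.neg_apply, Int.cast_neg]
      ring

theorem mem_latt {e : PreExp K E} {T : Torus e} {x : T.t × (Fin 3 → ℝ)} :
    x ∈ latt e T ↔ e.exp (x.1 : E) = 1 ∧ ∃ k : Fin 3 → ℤ, ∀ i, x.2 i = 2 * Real.pi * k i :=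
  Iff.rfl

theorem latt_cocompact (e : PreExp K E) (T : Torus e) :
    ∃ R₀ : ℝ, ∀ x : T.t × (Fin 3 → ℝ), ∃ l ∈ latt e T, ‖x - l‖ ≤ R₀ := by
  obtain ⟨R₁, h1⟩ := T.cocompact
  refine ⟨max R₁ (2 * Real.pi), fun x => ?_⟩
  obtain ⟨l, hl, hl1, hl2⟩ := h1 x.1 x.1.2
  have hpi : 0 < 2 * Real.pi := by positivity
  refine ⟨(⟨l, hl⟩, fun i => 2 * Real.pi * (⌊x.2 i / (2 * Real.pi)⌋ : ℤ)),
    ⟨hl1, fun i => ⌊x.2 i / (2 * Real.pi)⌋, fun i => rfl⟩, ?_⟩
  rw [Prod.norm_def]
  refine max_le_max ?_ ?_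
  · exact hl2
  · rw [pi_norm_le_iff_of_nonneg hpi.le]
    intro i
    have h3 : (x - ((⟨l, hl⟩ : T.t), fun i => 2 * Real.pi * ((⌊x.2 i / (2 * Real.pi)⌋ : ℤ) : ℝ))).2 i
      = x.2 i - 2 * Real.pi * (⌊x.2 i / (2 * Real.pi)⌋ : ℤ) := rfl
    rw [h3, Real.norm_eq_abs]
    have h4 := Int.floor_le (x.2 i / (2 * Real.pi))
    have h5 := Int.lt_floor_add_one (x.2 i / (2 * Real.pi))
    rw [le_div_iff₀ hpi] at h4
    rw [div_lt_iff₀ hpi] at h5
    rw [abs_le]
    constructor <;> nlinarith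

theorem latt_countable [FiniteDimensional ℝ E] (e : PreExp K E) (T : Torus e) :
    (latt e T : Set (T.t × (Fin 3 → ℝ))).Countable := by
  obtain ⟨r, hr, h⟩ := e.lower (1 / 2) (by norm_num)
  have hpi : 0 < 2 * Real.pi := by positivity
  set ρ := min r (2 * Real.pi) with hρ
  have hρ0 : 0 < ρ := lt_min hr hpi
  -- a small element of the lattice is zero
  have small : ∀ x ∈ latt e T, ‖x‖ < ρ → x = 0 := by
    rintro x ⟨hx, k, hk⟩ hn
    have h1 : ‖x.1‖ ≤ ‖x‖ := norm_fst_le x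
    have h2 : ‖x.2‖ ≤ ‖x‖ := norm_snd_le x
    have hx1 : x.1 = 0 := by
      have h3 := h (x.1 : E) 0 (by
        have : ‖(x.1 : E)‖ = ‖x.1‖ := rfl
        rw [this]
        exact lt_of_le_of_lt h1 (lt_of_lt_of_le hn (min_le_left _ _))) (by simpa using hr)
      rw [hx, F2h.exp_zero e, dist_self, sub_zero] at h3
      have h4 : ‖(x.1 : E)‖ = 0 := by
        have := norm_nonneg (x.1 : E)
        nlinarith
      exact Subtype.ext (norm_eq_zero.1 h4)
    have hx2 : x.2 = 0 := by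
      funext i
      have h5 : ‖x.2 i‖ ≤ ‖x.2‖ := norm_le_pi_norm x.2 i
      have h6 : ‖x.2 i‖ < 2 * Real.pi :=
        lt_of_le_of_lt (h5.trans h2) (lt_of_lt_of_le hn (min_le_right _ _))
      rw [hk i, norm_mul, Real.norm_of_nonneg hpi.le] at h6
      have h7 : ‖((k i : ℤ) : ℝ)‖ < 1 := by
        by_contra hcon
        push Not at hcon
        nlinarith
      rw [Real.norm_eq_abs, ← Int.cast_abs] at h7
      have h8 : |k i| < 1 := by exact_mod_cast h7
      have h9 : k i = 0 := by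
        have := abs_lt.1 h8
        omega
      rw [hk i, h9]
      simp
    exact Prod.ext hx1 hx2
  refine Set.PairwiseDisjoint.countable_of_isOpen (s := fun x => ball x (ρ / 2)) ?_
    (fun _ _ => isOpen_ball) (fun x _ => ⟨x, mem_ball_self (by positivity)⟩)
  intro x hx y hy hxy
  rw [Function.onFun, Set.disjoint_left]
  intro z hz1 hz2
  apply hxy
  have h1 : ‖x - y‖ < ρ := by
    rw [← dist_eq_norm]
    rw [mem_ball] at hz1 hz2
    calc dist x y ≤ dist x z + dist z y := dist_triangle _ _ _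
      _ < ρ / 2 + ρ / 2 := by
        rw [dist_comm x z]; exact add_lt_add hz1 hz2
      _ = ρ := by ring
  have h2 := small (x - y) ((latt e T).sub_mem hx hy) h1
  exact sub_eq_zero.1 h2

/-- the subgroup generated by a line and the lattice -/
def lineGrp (e : PreExp K E) (T : Torus e) (v : T.t × (Fin 3 → ℝ)) :
    AddSubgroup (T.t × (Fin 3 → ℝ)) where
  carrier := {x | ∃ u : ℝ, ∃ l ∈ latt e T, x = u • v + l}
  zero_mem' := ⟨0, 0, (latt e T).zero_mem, by simp⟩
  add_mem' := by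
    rintro _ _ ⟨u, l, hl, rfl⟩ ⟨u', l', hl', rfl⟩
    exact ⟨u + u', l + l', (latt e T).add_mem hl hl', by rw [add_smul]; abel⟩
  neg_mem' := by
    rintro _ ⟨u, l, hl, rfl⟩
    exact ⟨-u, -l, (latt e T).neg_mem hl, by rw [neg_smul]; abel⟩

/-- F2 with the results of F1 and D4 as hypotheses. -/
theorem no_submetry_of [FiniteDimensional ℝ E] (hK : BiInv K) (e : ExpMap K E)
    (T : Torus e.toPreExp) (F : GeoFamily R) (p : K → R) (hp : Submetry p) (h1 : p 1 = F.x₀)
    (hlift : ∀ (c : ℝ → R), p 1 = c 0 →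
      (∀ t₀ t : ℝ, 0 ≤ t → t ≤ 1 → dist (c t₀) (c (t₀ + t)) = t) →
      (∀ t₀ t : ℝ, 0 ≤ t → t ≤ 1 → ∀ z : R, dist (c t₀) z = t →
        dist z (c (t₀ + 1)) = 1 - t → z = c (t₀ + t)) →
      ∃ X : E, ‖X‖ = 1 ∧ ∀ t : ℝ, p (e.exp (t • X)) = c t)
    (hrec : ∀ (L : AddSubgroup (T.t × (Fin 3 → ℝ))) {R₀ : ℝ}
      (_ : ∀ x : T.t × (Fin 3 → ℝ), ∃ l ∈ L, ‖x - l‖ ≤ R₀)
      (x : T.t × (Fin 3 → ℝ)) {ε : ℝ} (_ : 0 < ε) (T' : ℝ),
      ∃ t : ℝ, T' ≤ t ∧ ∃ l ∈ L, ‖t • x - l‖ < ε)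
    (hlin : ∀ (L : AddSubgroup (T.t × (Fin 3 → ℝ))) {R₀ : ℝ}
      (_ : ∀ x : T.t × (Fin 3 → ℝ), ∃ l ∈ L, ‖x - l‖ ≤ R₀)
      (_ : (L : Set (T.t × (Fin 3 → ℝ))).Countable),
      ∃ V : Set (Submodule ℝ (T.t × (Fin 3 → ℝ))), V.Countable ∧
        ∀ S : AddSubgroup (T.t × (Fin 3 → ℝ)), IsClosed (S : Set (T.t × (Fin 3 → ℝ))) → L ≤ S →
        ∃ P ∈ V, (∀ x : T.t × (Fin 3 → ℝ), x ∈ P ↔ ∀ t : ℝ, t • x ∈ S) ∧
          ∃ ε > 0, ∀ x ∈ S, ‖x‖ < ε → x ∈ P) :
    False := by
  classical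
  obtain ⟨R₀, hR₀⟩ := latt_cocompact e.toPreExp T
  have hLc := latt_countable e.toPreExp T
  obtain ⟨V, hV, hVS⟩ := hlin (latt e.toPreExp T) hR₀ hLc
  -- the data for each parameter
  have data : ∀ s ∈ F.I, ∃ (k : K) (X' : T.t), ‖X'‖ = 1 ∧
      ∀ u : ℝ, p (k⁻¹ * e.exp (u • (X' : E)) * k) = F.c s u := by
    intro s hs
    obtain ⟨X, hX, hXc⟩ := hlift (F.c s) (by rw [h1, F.c_zero s hs]) (F.geo s hs) (F.uniq s hs)
    obtain ⟨k, X', hX't, hX'n, hX'⟩ := T.conj_into X
    refine ⟨k, ⟨X', hX't⟩, ?_, fun u => ?_⟩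
    · show ‖X'‖ = 1
      rw [hX'n, hX]
    · show p (k⁻¹ * e.exp (u • X') * k) = F.c s u
      rw [← hX' u, hXc u]
  choose! k X' hX'n hX'c using data
  -- the closed subgroups
  let v : ℝ → T.t × (Fin 3 → ℝ) := fun s => (X' s, F.om)
  let S : ℝ → AddSubgroup (T.t × (Fin 3 → ℝ)) := fun s =>
    (lineGrp e.toPreExp T (v s)).topologicalClosure
  have hSc : ∀ s, IsClosed (S s : Set (T.t × (Fin 3 → ℝ))) := fun s =>
    AddSubgroup.isClosed_topologicalClosure _
  have hLS : ∀ s, latt e.toPreExp T ≤ S s := by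
    intro s x hx
    apply AddSubgroup.le_topologicalClosure
    exact ⟨0, x, hx, by simp⟩
  have hvS : ∀ s (u : ℝ), u • v s ∈ S s := by
    intro s u
    apply AddSubgroup.le_topologicalClosure
    exact ⟨u, 0, (latt e.toPreExp T).zero_mem, by simp⟩
  -- the key identity on the closed subgroup
  have hid : ∀ s ∈ F.I, ∀ x ∈ S s, p ((k s)⁻¹ * e.exp (x.1 : E) * k s) = F.Φ s x.2 := by
    intro s hs x hx
    have hpc : Continuous p := by
      have : LipschitzWith 1 p := LipschitzWith.of_dist_le_mul (fun x y => by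
        simpa using hp.le x y)
      exact this.continuous
    have hec : Continuous e.exp := by
      have : LipschitzWith 1 e.exp := LipschitzWith.of_dist_le_mul (fun x y => by
        simpa [dist_eq_norm] using e.lip x y)
      exact this.continuous
    have hcc : Continuous (fun g : K => (k s)⁻¹ * g * k s) := by
      have : Isometry (fun g : K => (k s)⁻¹ * g * k s) := by
        refine Isometry.of_dist_eq (fun x y => ?_)
        rw [hK.right, hK.left]
      exact this.continuous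
    have hclosed : IsClosed {x : T.t × (Fin 3 → ℝ) |
        p ((k s)⁻¹ * e.exp (x.1 : E) * k s) = F.Φ s x.2} := by
      apply isClosed_eq
      · exact hpc.comp (hcc.comp (hec.comp (continuous_subtype_val.comp continuous_fst)))
      · exact (F.Φ_cont s hs).comp continuous_snd
    have hsub : (lineGrp e.toPreExp T (v s) : Set (T.t × (Fin 3 → ℝ))) ⊆
        {x : T.t × (Fin 3 → ℝ) | p ((k s)⁻¹ * e.exp (x.1 : E) * k s) = F.Φ s x.2} := by
      rintro _ ⟨u, l, ⟨hl, kk, hkk⟩, rfl⟩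
      show p ((k s)⁻¹ * e.exp (((u • v s + l).1 : T.t) : E) * k s) = F.Φ s (u • v s + l).2
      have e1 : (((u • v s + l).1 : T.t) : E) = ((u • X' s : T.t) : E) + (l.1 : E) := rfl
      have e2 : (u • v s + l).2 = fun i => (u • F.om) i + 2 * Real.pi * kk i := by
        funext i
        rw [← hkk i]
        rfl
      rw [e1, T.add _ (u • X' s).2 _ l.1.2, hl, mul_one, e2, F.Φ_per s hs, F.Φ_c s hs]
      exact hX'c s hs u
    have := closure_minimal hsub hclosed
    exact this hx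
  -- linear parts
  have hP : ∀ s, ∃ P ∈ V, (∀ x : T.t × (Fin 3 → ℝ), x ∈ P ↔ ∀ t : ℝ, t • x ∈ S s) ∧
          ∃ ε > 0, ∀ x ∈ S s, ‖x‖ < ε → x ∈ P := fun s => hVS (S s) (hSc s) (hLS s)
  choose P hPV hPiff εs hεs hPsmall using hP
  have hvP : ∀ s, v s ∈ P s := fun s => (hPiff s _).2 (fun u => hvS s u)
  have hPS : ∀ s, ∀ x ∈ P s, x ∈ S s := by
    intro s x hx
    have := (hPiff s x).1 hx 1
    simpa using this
  -- momentum
  have mom : ∀ s ∈ F.I, ∀ x ∈ P s, inner ℝ (X' s) x.1 = ∑ i, F.m s i * x.2 i := by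
    intro s hs x hx
    obtain ⟨C, hC, hlow⟩ := F.lower s hs
    have main : ∀ (r u : ℝ), 0 < r → r ≤ 1 → ‖u • x.2‖ ≤ r / 6 →
        u * (∑ i, F.m s i * x.2 i - inner ℝ (X' s) x.1) ≤
          C * r ^ 2 + u ^ 2 * ‖x.1‖ ^ 2 / (2 * r) := by
      intro r u hr hr1 hu
      have hmem : r • v s + u • x ∈ P s := (P s).add_mem ((P s).smul_mem r (hvP s))
        ((P s).smul_mem u hx)
      have h2 := hid s hs _ (hPS s _ hmem)
      have h3 := hlow r (u • x.2) hr hr1 hu
      have e2 : (r • v s + u • x).2 = r • F.om + u • x.2 := rfl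
      rw [e2] at h2
      rw [← h2, ← h1] at h3
      have h4 := hp.le 1 ((k s)⁻¹ * e.exp (((r • v s + u • x).1 : T.t) : E) * k s)
      rw [F2h.dist_conj hK] at h4
      have h5 := e.lip 0 (((r • v s + u • x).1 : T.t) : E)
      rw [(F2h.exp_zero e.toPreExp), zero_sub, norm_neg] at h5
      have e3 : ‖(((r • v s + u • x).1 : T.t) : E)‖ = ‖r • X' s + u • x.1‖ := rfl
      rw [e3] at h5
      set Z : T.t := r • X' s + u • x.1 with hZ
      have h6 : ‖Z‖ ^ 2 = r ^ 2 + 2 * (r * u * inner ℝ (X' s) x.1) + u ^ 2 * ‖x.1‖ ^ 2 := by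
        rw [hZ, norm_add_sq_real, norm_smul, norm_smul, hX'n s hs, inner_smul_left,
          inner_smul_right, Real.norm_eq_abs, Real.norm_eq_abs, mul_one, sq_abs, mul_pow, sq_abs]
        simp only [conj_trivial]
        ring
      have h7 : ‖Z‖ ≤ r + u * inner ℝ (X' s) x.1 + u ^ 2 * ‖x.1‖ ^ 2 / (2 * r) := by
        have h8 : 0 ≤ (‖Z‖ - r) ^ 2 := sq_nonneg _
        have h9 : ‖Z‖ ≤ (‖Z‖ ^ 2 + r ^ 2) / (2 * r) := by
          rw [le_div_iff₀ (by positivity)]
          nlinarith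
        refine h9.trans (le_of_eq ?_)
        rw [h6]
        field_simp
        ring
      have h10 : ∑ i, F.m s i * (u • x.2) i = u * ∑ i, F.m s i * x.2 i := by
        rw [Finset.mul_sum]
        refine Finset.sum_congr rfl (fun i _ => ?_)
        simp only [Pi.smul_apply, smul_eq_mul]
        ring
      rw [h10] at h3
      have h11 := (h3.trans h4).trans (h5.trans h7)
      linarith
    -- let r = σ², u = ± σ³
    set D := ∑ i, F.m s i * x.2 i - inner ℝ (X' s) x.1 with hD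
    set M := C + ‖x.1‖ ^ 2 / 2 with hM
    have hM0 : 0 ≤ M := by positivity
    have bound : ∀ σ : ℝ, 0 < σ → σ ≤ 1 → 6 * σ * ‖x.2‖ ≤ 1 → |D| ≤ σ * M := by
      intro σ hσ hσ1 hσ2
      have hn : ∀ u : ℝ, |u| = σ ^ 3 → ‖u • x.2‖ ≤ σ ^ 2 / 6 := by
        intro u hu
        rw [norm_smul, Real.norm_eq_abs, hu]
        have : 0 < σ ^ 2 := by positivity
        have h12 : σ ^ 3 * ‖x.2‖ = σ ^ 2 * (6 * σ * ‖x.2‖) / 6 := by ring
        rw [h12]
        have := mul_le_mul_of_nonneg_left hσ2 this.le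
        linarith
      have hq : (σ ^ 3) ^ 2 * ‖x.1‖ ^ 2 / (2 * σ ^ 2) = σ ^ 4 * (‖x.1‖ ^ 2 / 2) := by
        field_simp
      have hb1 := main (σ ^ 2) (σ ^ 3) (by positivity) (by nlinarith)
        (hn _ (abs_of_pos (by positivity)))
      have hb2 := main (σ ^ 2) (-σ ^ 3) (by positivity) (by nlinarith)
        (hn _ (by rw [abs_neg, abs_of_pos (by positivity)]))
      rw [neg_sq] at hb2
      rw [hq] at hb1 hb2
      have h13 : 0 < σ ^ 3 := by positivity
      have h14 : σ ^ 3 * |D| ≤ σ ^ 3 * (σ * M) := by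
        rcases abs_cases D with ⟨h, _⟩ | ⟨h, _⟩
        · rw [h, hM]; nlinarith
        · rw [h, hM]; nlinarith
      exact le_of_mul_le_mul_left h14 h13
    have hD0 : D = 0 := by
      by_contra hne
      have hpos : 0 < |D| := abs_pos.2 hne
      set σ := min (1 / 2) (min (1 / (6 * (‖x.2‖ + 1))) (|D| / (2 * (M + 1)))) with hσ
      have hxn := norm_nonneg x.2
      have hσ0 : 0 < σ := by
        rw [hσ]; positivity
      have hσa : σ ≤ 1 / 2 := min_le_left _ _
      have hσb : σ ≤ 1 / (6 * (‖x.2‖ + 1)) := (min_le_right _ _).trans (min_le_left _ _)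
      have hσc : σ ≤ |D| / (2 * (M + 1)) := (min_le_right _ _).trans (min_le_right _ _)
      rw [le_div_iff₀ (by positivity)] at hσb hσc
      have := bound σ hσ0 (by linarith) (by nlinarith)
      nlinarith
    linarith
  -- two parameters with the same linear part
  have hpair : ∃ s ∈ F.I, ∃ s' ∈ F.I, s ≠ s' ∧ P s = P s' := by
    by_contra hcon
    push Not at hcon
    apply F.I_unc
    refine Set.countable_of_injective_of_countable_image (f := P) ?_ (hV.mono ?_)
    · intro s hs s' hs' h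
      by_contra hne
      exact hcon s hs s' hs' hne h
    · rintro _ ⟨s, _, rfl⟩
      exact hPV s
  obtain ⟨s, hs, s', hs', hne, hPP⟩ := hpair
  have hXX : X' s = X' s' := by
    have h := mom s hs (v s') (by rw [hPP]; exact hvP s')
    have h2 : inner ℝ (X' s) (X' s') = (1 : ℝ) := by
      rw [← F.m_om s hs]
      exact h
    exact (inner_eq_one_iff_of_norm_eq_one (hX'n s hs) (hX'n s' hs')).1 h2
  obtain ⟨σ, hσ, hσw⟩ := F.m_diff s hs s' hs' hne
  have hw : ∀ x ∈ P s, ∑ i, F.w i * x.2 i = 0 := by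
    intro x hx
    have ha := mom s hs x hx
    have hb := mom s' hs' x (by rw [← hPP]; exact hx)
    rw [← hXX, ha] at hb
    have hc : σ * ∑ i, F.w i * x.2 i = 0 := by
      rw [Finset.mul_sum]
      have : ∀ i, σ * (F.w i * x.2 i) = F.m s i * x.2 i - F.m s' i * x.2 i := by
        intro i
        have h := congrFun hσw i
        simp only [Pi.sub_apply, Pi.smul_apply, smul_eq_mul] at h
        rw [← mul_assoc, ← h]
        ring
      rw [Finset.sum_congr rfl (fun i _ => this i), Finset.sum_sub_distrib, hb, sub_self]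
    rcases mul_eq_zero.1 hc with h | h
    · exact absurd h hσ
    · exact h
  -- recurrence
  have hom := F.om_ne
  obtain ⟨t, ht, l, hl, htl⟩ := hrec (latt e.toPreExp T) hR₀ (v s)
    (ε := min (εs s) 1) (lt_min (hεs s) one_pos) (1 / |F.om 1|)
  have hmem : t • v s - l ∈ P s := by
    apply hPsmall s _ ((S s).sub_mem (hvS s t) (hLS s hl))
    exact lt_of_lt_of_le htl (min_le_left _ _)
  have hz1 := hw _ hmem
  have hz2 := hw _ (hvP s)
  obtain ⟨_, kk, hkk⟩ := hl
  have hz3 : ∑ i, F.w i * (kk i : ℝ) = 0 := by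
    have e1 : ∀ i, F.w i * (t • v s - l).2 i =
        t * (F.w i * (v s).2 i) - 2 * Real.pi * (F.w i * kk i) := by
      intro i
      have e2 : (t • v s - l).2 i = t * (v s).2 i - l.2 i := rfl
      rw [e2, hkk i]
      ring
    rw [Finset.sum_congr rfl (fun i _ => e1 i), Finset.sum_sub_distrib, ← Finset.mul_sum,
      ← Finset.mul_sum, hz2] at hz1
    have hpi : 2 * Real.pi ≠ 0 := by positivity
    have : 2 * Real.pi * ∑ i, F.w i * (kk i : ℝ) = 0 := by linarith
    rcases mul_eq_zero.1 this with h | h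
    · exact absurd h hpi
    · exact h
  have hk1 := F.w_int kk hz3
  have hfin : ‖(t • v s - l).2 1‖ < 1 := by
    refine lt_of_le_of_lt (norm_le_pi_norm (t • v s - l).2 1) ?_
    refine lt_of_le_of_lt (norm_snd_le _) ?_
    exact lt_of_lt_of_le htl (min_le_right _ _)
  have e3 : (t • v s - l).2 1 = t * F.om 1 := by
    have e2 : (t • v s - l).2 1 = t * F.om 1 - l.2 1 := rfl
    rw [e2, hkk 1, hk1]
    simp
  rw [e3, Real.norm_eq_abs, abs_mul] at hfin
  have hpos : 0 < |F.om 1| := abs_pos.2 hom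
  have ht0 : 0 < 1 / |F.om 1| := by positivity
  have ht1 : 1 ≤ t * |F.om 1| := by
    rwa [div_le_iff₀ hpos] at ht
  have ht2 : |t| = t := abs_of_pos (lt_of_lt_of_le ht0 ht)
  rw [ht2] at hfin
  linarith

end F

end Helper99.BQ
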