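import Pool.Agent.Helper38.BQ.H2

/-!
MP_986e36_gt, Q2, block S1: the end point map of `g' = g w`, `g 0 = 1`, near `w = 0` in
`L²([0,1], ℍ)`, through the Volterra operator.
-/

open scoped Manifold ContDiff Quaternion ENNReal Topology
open Bundle Set Metric

noncomputable section

namespace Helper99.BQ

namespace S1

open MeasureTheory

/-- continuous functions on the unit interval -/
abbrev XX : Type := C(Icc (0 : ℝ) 1, ℍ[ℝ])

/-- extension of a continuous function on the unit interval to the line -/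
def ext (g : XX) (s : ℝ) : ℍ[ℝ] := g (projIcc 0 1 zero_le_one s)

theorem ext_continuous (g : XX) : Continuous (ext g) := g.continuous.comp continuous_projIcc

theorem norm_ext_le (g : XX) (s : ℝ) : ‖ext g s‖ ≤ ‖g‖ := g.norm_coe_le_norm _

theorem integrable_coe (w : HH) : Integrable (w : ℝ → ℍ[ℝ]) μI :=
  (Lp.memLp w).integrable (by norm_num)

theorem integrable_mul (w : HH) (g : XX) : Integrable (fun s => ext g s * w s) μI := by
  refine (integrable_coe w).bdd_mul (c := ‖g‖) ?_ ?_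
  · exact (ext_continuous g).aestronglyMeasurable
  · exact Filter.Eventually.of_forall fun s => norm_ext_le g s

theorem integral_norm_le (w : HH) : ∫ t, ‖w t‖ ∂μI ≤ ‖w‖ := by
  rw [Lp.norm_def]
  have h5 : ∫ t, ‖w t‖ ∂μI = (eLpNorm w 1 μI).toReal := by
    rw [eLpNorm_one_eq_lintegral_enorm]
    exact integral_norm_eq_lintegral_enorm (Lp.aestronglyMeasurable w)
  rw [h5]
  apply ENNReal.toReal_mono (Lp.eLpNorm_ne_top w)
  exact eLpNorm_le_eLpNorm_of_exponent_le (by norm_num) (Lp.aestronglyMeasurable w)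

instance : NullSingletonClass μI := by unfold μI; infer_instance

/-- the Volterra operator -/
def Kc (w : HH) (g : XX) : XX where
  toFun := fun t => ∫ s in (0 : ℝ)..t, ext g s * w s ∂μI
  continuous_toFun := by
    have h := intervalIntegral.continuous_primitive (μ := μI) (f := fun s => ext g s * w s)
      (fun a b => (integrable_mul w g).intervalIntegrable) 0
    exact h.comp continuous_subtype_val

theorem Kc_apply (w : HH) (g : XX) (t : Icc (0 : ℝ) 1) :
    Kc w g t = ∫ s in (0 : ℝ)..t, ext g s * w s ∂μI := rfl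

theorem Kc_bound (w : HH) (g : XX) : ‖Kc w g‖ ≤ 1 * ‖w‖ * ‖g‖ := by
  rw [ContinuousMap.norm_le _ (by positivity)]
  intro t
  rw [Kc_apply]
  calc ‖∫ s in (0 : ℝ)..t, ext g s * w s ∂μI‖
      ≤ ∫ s in Set.uIoc 0 (t : ℝ), ‖ext g s * w s‖ ∂μI :=
        intervalIntegral.norm_integral_le_integral_norm_uIoc
    _ ≤ ∫ s, ‖ext g s * w s‖ ∂μI :=
        setIntegral_le_integral (integrable_mul w g).norm
          (Filter.Eventually.of_forall fun s => norm_nonneg _)
    _ ≤ ∫ s, ‖g‖ * ‖w s‖ ∂μI := by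
        apply integral_mono (integrable_mul w g).norm ((integrable_coe w).norm.const_mul _)
        intro s
        simp only
        rw [norm_mul]
        exact mul_le_mul_of_nonneg_right (norm_ext_le g s) (norm_nonneg _)
    _ = ‖g‖ * ∫ s, ‖w s‖ ∂μI := integral_const_mul _ _
    _ ≤ 1 * ‖w‖ * ‖g‖ := by
        rw [one_mul, mul_comm]
        exact mul_le_mul_of_nonneg_right (integral_norm_le w) (norm_nonneg _)

/-- the Volterra operator as a bilinear map -/
def Kl : HH →ₗ[ℝ] XX →ₗ[ℝ] XX := LinearMap.mk₂ ℝ Kc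
  (by
    intro w w' g
    ext1 t
    rw [ContinuousMap.add_apply, Kc_apply, Kc_apply, Kc_apply,
      ← intervalIntegral.integral_add (integrable_mul w g).intervalIntegrable
        (integrable_mul w' g).intervalIntegrable]
    apply intervalIntegral.integral_congr_ae
    filter_upwards [Lp.coeFn_add w w'] with s hs _
    rw [hs, Pi.add_apply, mul_add])
  (by
    intro c w g
    ext1 t
    rw [ContinuousMap.smul_apply, Kc_apply, Kc_apply, ← intervalIntegral.integral_smul]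
    apply intervalIntegral.integral_congr_ae
    filter_upwards [Lp.coeFn_smul c w] with s hs _
    rw [hs, Pi.smul_apply, mul_smul_comm])
  (by
    intro w g g'
    ext1 t
    rw [ContinuousMap.add_apply, Kc_apply, Kc_apply, Kc_apply,
      ← intervalIntegral.integral_add (integrable_mul w g).intervalIntegrable
        (integrable_mul w g').intervalIntegrable]
    apply intervalIntegral.integral_congr_ae
    refine Filter.Eventually.of_forall fun s _ => ?_
    show ext (g + g') s * w s = ext g s * w s + ext g' s * w s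
    rw [← add_mul]
    rfl)
  (by
    intro c w g
    ext1 t
    rw [ContinuousMap.smul_apply, Kc_apply, Kc_apply, ← intervalIntegral.integral_smul]
    apply intervalIntegral.integral_congr_ae
    refine Filter.Eventually.of_forall fun s _ => ?_
    show ext (c • g) s * w s = c • (ext g s * w s)
    rw [← smul_mul_assoc]
    rfl)

/-- the Neumann series, abstractly -/
theorem neumann {H X E : Type} [NormedAddCommGroup H] [NormedSpace ℝ H] [NormedAddCommGroup X]
    [NormedSpace ℝ X] [CompleteSpace X] [NormedAddCommGroup E] [NormedSpace ℝ E]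
    (B : H →ₗ[ℝ] X →ₗ[ℝ] X) (hB : ∀ w g, ‖B w g‖ ≤ 1 * ‖w‖ * ‖g‖) (o : X) (e : X →L[ℝ] E) :
    ∃ (F : H → E) (I : H →L[ℝ] E), (∀ v, I v = e (B v o)) ∧
      (∀ w ∈ ball (0 : H) 1, ContDiffAt ℝ ∞ F w) ∧ HasFDerivAt F I 0 ∧
      ∀ w ∈ ball (0 : H) 1, ∀ g : X, g - B w g = o → F w = e g := by
  set K : H →L[ℝ] X →L[ℝ] X := B.mkContinuous₂ 1 hB with hK
  have hKa : ∀ w g, K w g = B w g := fun w g => rfl
  have hn : ∀ w, ‖K w‖ ≤ ‖w‖ := by
    intro w
    refine ContinuousLinearMap.opNorm_le_bound _ (norm_nonneg _) fun g => ?_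
    rw [hKa]
    simpa using hB w g
  have hun : ∀ w, ‖w‖ < 1 → IsUnit (1 - K w) := by
    intro w hw
    have h : ‖K w‖ < 1 := (hn w).trans_lt hw
    exact ⟨Units.oneSub (K w) h, Units.val_oneSub _ h⟩
  let ev : (X →L[ℝ] X) →L[ℝ] E := e.comp (ContinuousLinearMap.apply ℝ X o)
  have hev : ∀ A, ev A = e (A o) := fun A => rfl
  refine ⟨fun w => ev (Ring.inverse (1 - K w)), ev.comp K, fun v => rfl, ?_, ?_, ?_⟩
  · intro w hw
    obtain ⟨u, hu⟩ := hun w (mem_ball_zero_iff.1 hw)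
    have h1 : ContDiffAt ℝ ∞ (fun w : H => (1 : X →L[ℝ] X) - K w) w :=
      contDiffAt_const.sub K.contDiff.contDiffAt
    have h2 : ContDiffAt ℝ ∞ (Ring.inverse : (X →L[ℝ] X) → _) (1 - K w) := by
      rw [← hu]; exact contDiffAt_ringInverse ℝ u
    have h3 : ContDiffAt ℝ ∞ (fun w : H => Ring.inverse ((1 : X →L[ℝ] X) - K w)) w :=
      ContDiffAt.comp (g := (Ring.inverse : (X →L[ℝ] X) → _)) w h2 h1
    exact ev.contDiff.contDiffAt.comp w h3
  · have h1 : HasFDerivAt (fun w : H => (1 : X →L[ℝ] X) - K w) (-K) 0 :=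
      K.hasFDerivAt.const_sub 1
    have h2 : HasFDerivAt (Ring.inverse : (X →L[ℝ] X) → _)
        (-ContinuousLinearMap.mulLeftRight ℝ (X →L[ℝ] X) ↑(1 : (X →L[ℝ] X)ˣ)⁻¹
          ↑(1 : (X →L[ℝ] X)ˣ)⁻¹) (1 - K 0) := by
      have h := hasFDerivAt_ringInverse (𝕜 := ℝ) (1 : (X →L[ℝ] X)ˣ)
      rw [Units.val_one] at h
      rw [map_zero, sub_zero]
      exact h
    have h3 := ev.hasFDerivAt.comp (0 : H) (h2.comp (0 : H) h1)
    refine h3.congr_fderiv ?_
    ext1 v
    simp
  · intro w hw g hg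
    have h1 : (1 - K w) g = o := by
      rw [← hg]; rfl
    have h2 : Ring.inverse (1 - K w) o = g := by
      rw [← h1, ← mul_apply_eq_comp, Ring.inverse_mul_cancel _ (hun w (mem_ball_zero_iff.1 hw))]
      rfl
    show ev (Ring.inverse (1 - K w)) = e g
    rw [hev, h2]

/-- interval integrals with respect to the measure of the unit interval -/
theorem integral_μI {t : ℝ} (h0 : 0 ≤ t) (h1 : t ≤ 1) (f : ℝ → ℍ[ℝ]) :
    ∫ s in (0 : ℝ)..t, f s ∂μI = ∫ s in (0 : ℝ)..t, f s := by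
  rw [intervalIntegral.integral_of_le h0, intervalIntegral.integral_of_le h0, μI,
    Measure.restrict_restrict measurableSet_Ioc]
  congr 2
  apply Set.inter_eq_left.2
  intro s hs
  exact ⟨hs.1.le, hs.2.trans h1⟩

theorem ev_K (v : HH) : Kc v 1 ⟨1, right_mem_Icc.2 zero_le_one⟩ = ∫ t, v t ∂μI := by
  rw [Kc_apply]
  have h1 : ∀ s, ext (1 : XX) s * v s = v s := by
    intro s
    show (1 : ℍ[ℝ]) * v s = v s
    rw [one_mul]
  simp only [h1]
  rw [integral_μI zero_le_one le_rfl, intervalIntegral.integral_of_le zero_le_one,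
    ← integral_Icc_eq_integral_Ioc]
  rfl

theorem path_eq {g : ℝ → ℍ[ℝ]} (hg : IsPath g) (h0 : g 0 = 1) :
    ∃ G : XX, (∀ t : Icc (0 : ℝ) 1, G t = g t) ∧ G - Kl (wLp g hg) G = 1 := by
  have hu : UniqueDiffOn ℝ (Icc (0 : ℝ) 1) := uniqueDiffOn_Icc_zero_one
  refine ⟨⟨fun t => g t, hg.smooth.continuousOn.domRestrict⟩, fun t => rfl, ?_⟩
  set G : XX := ⟨fun t => g t, hg.smooth.continuousOn.domRestrict⟩ with hG
  ext1 t
  have ht0 : 0 ≤ (t : ℝ) := t.2.1
  have ht1 : (t : ℝ) ≤ 1 := t.2.2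
  show G t - Kc (wLp g hg) G t = 1
  rw [Kc_apply]
  have h2 : ∫ s in (0 : ℝ)..t, ext G s * (wLp g hg) s ∂μI =
      ∫ s in (0 : ℝ)..t, derivWithin g (Icc 0 1) s ∂μI := by
    apply intervalIntegral.integral_congr_ae
    have h3 : (wLp g hg : ℝ → ℍ[ℝ]) =ᵐ[μI] vel g := MemLp.coeFn_toLp (memLp_vel hg)
    filter_upwards [h3] with s hs hst
    rw [Set.uIoc_of_le ht0] at hst
    have hs1 : s ∈ Icc (0 : ℝ) 1 := ⟨hst.1.le, hst.2.trans ht1⟩
    rw [hs]
    have h4 : ext G s = g s := by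
      show g (projIcc 0 1 zero_le_one s) = g s
      rw [projIcc_of_mem _ hs1]
    rw [h4, vel, ← mul_assoc, mul_inv_cancel₀ (hg.ne s hs1), one_mul]
  rw [h2, integral_μI ht0 ht1]
  have h5 : ∫ s in (0 : ℝ)..t, derivWithin g (Icc 0 1) s = g t - g 0 := by
    apply intervalIntegral.integral_eq_sub_of_hasDerivAt_of_le ht0
    · exact hg.smooth.continuousOn.mono (Icc_subset_Icc le_rfl ht1)
    · intro x hx
      have hx1 : x ∈ Icc (0 : ℝ) 1 := ⟨hx.1.le, (hx.2.trans_le ht1).le⟩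
      exact ((hg.smooth.differentiableOn one_ne_zero x hx1).hasDerivWithinAt).hasDerivAt
        (Icc_mem_nhds hx.1 (hx.2.trans_le ht1))
    · apply ContinuousOn.intervalIntegrable_of_Icc ht0
      exact (hg.smooth.continuousOn_derivWithin hu le_rfl).mono (Icc_subset_Icc le_rfl ht1)
  rw [h5, h0]
  show g t - (g t - 1) = 1
  abel

end S1

/-- S1: the end point map near zero. -/
theorem exists_volterra : ∃ (F : HH → ℍ[ℝ]) (I : HH →L[ℝ] ℍ[ℝ]),
    (∀ v : HH, I v = ∫ t, v t ∂μI) ∧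
    (∀ w ∈ ball (0 : HH) 1, ContDiffAt ℝ ∞ F w) ∧ HasFDerivAt F I 0 ∧
    ∀ (g : ℝ → ℍ[ℝ]) (hg : IsPath g), g 0 = 1 → wLp g hg ∈ ball (0 : HH) 1 →
      F (wLp g hg) = g 1 := by
  obtain ⟨F, I, h1, h2, h3, h4⟩ := S1.neumann S1.Kl S1.Kc_bound 1
    (ContinuousMap.evalCLM ℝ (⟨1, right_mem_Icc.2 zero_le_one⟩ : Icc (0 : ℝ) 1))
  refine ⟨F, I, fun v => ?_, h2, h3, ?_⟩
  · rw [h1 v, ← S1.ev_K v]
    rfl
  · intro g hg h0 hw
    obtain ⟨G, hG, h5⟩ := S1.path_eq hg h0
    rw [h4 _ hw G h5]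
    exact hG _

end Helper99.BQ
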