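import Pool.Agent.Helper99.BQ.Defs

/-!
MP_986e36_gt, block S1: the three-sphere is simply connected.

`simplyConnected_of_cover` : a space covered by two simply connected open sets with path connected
intersection is simply connected.
-/

open scoped Manifold ContDiff Quaternion ENNReal Topology unitInterval
open Bundle Set Metric

noncomputable section

namespace Helper99.BQ

section VK

variable {X : Type*} [TopologicalSpace X]

/-- two paths with the same end points inside a simply connected set are homotopic. -/
theorem homotopic_of_mem {U : Set X} (hU : IsSimplyConnected U) {x y : X} (p q : Path x y)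
    (hp : ∀ t, p t ∈ U) (hq : ∀ t, q t ∈ U) : p.Homotopic q := by
  have := hU.simplyConnectedSpace
  have hx : x ∈ U := by simpa using hp 0
  have hy : y ∈ U := by simpa using hp 1
  let p' : Path (⟨x, hx⟩ : U) ⟨y, hy⟩ :=
    { toFun := fun t => ⟨p t, hp t⟩
      continuous_toFun := by fun_prop
      source' := by simp
      target' := by simp }
  let q' : Path (⟨x, hx⟩ : U) ⟨y, hy⟩ :=
    { toFun := fun t => ⟨q t, hq t⟩
      continuous_toFun := by fun_prop
      source' := by simp
      target' := by simp }
  have h : p'.Homotopic q' := SimplyConnectedSpace.paths_homotopic p' q'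
  have h2 := h.map ⟨Subtype.val, continuous_subtype_val⟩
  exact h2

theorem trans_mem {U : Set X} {x y z : X} (p : Path x y) (q : Path y z)
    (hp : ∀ t, p t ∈ U) (hq : ∀ t, q t ∈ U) (t : I) : (p.trans q) t ∈ U := by
  have h1 : (p.trans q) t ∈ range (p.trans q) := mem_range_self t
  rw [Path.trans_range] at h1
  rcases h1 with ⟨s, hs⟩ | ⟨s, hs⟩
  · rw [← hs]; exact hp s
  · rw [← hs]; exact hq s

theorem subpath_mem {U : Set X} {x y : X} (γ : Path x y) {s t : I} (hst : s ≤ t)
    (h : ∀ r ∈ Icc s t, γ r ∈ U) (r : I) : γ.subpath s t r ∈ U := by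
  have h1 : γ.subpath s t r ∈ range (γ.subpath s t) := mem_range_self r
  rw [Path.range_subpath_of_le γ s t hst] at h1
  obtain ⟨u, hu, hu2⟩ := h1
  rw [← hu2]; exact h u hu

/-- A space covered by two simply connected open sets with path connected intersection is simply
connected. -/
theorem simplyConnected_of_cover {U V : Set X} (hUo : IsOpen U) (hVo : IsOpen V)
    (hUV : U ∪ V = univ) (hU : IsSimplyConnected U) (hV : IsSimplyConnected V)
    (hI : IsPathConnected (U ∩ V)) : SimplyConnectedSpace X := by
  classical
  obtain ⟨x₀, hx₀, hjoin⟩ := hI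
  have hUp := hU.isPathConnected
  have hVp := hV.isPathConnected
  -- the reference paths
  have key : ∀ x : X, ∃ c : Path x₀ x, (x ∈ U → ∀ t, c t ∈ U) ∧ (x ∈ V → ∀ t, c t ∈ V) := by
    intro x
    by_cases hxU : x ∈ U
    · by_cases hxV : x ∈ V
      · have hj := hjoin (y := x) ⟨hxU, hxV⟩
        exact ⟨hj.somePath, fun _ t => (hj.somePath_mem t).1, fun _ t => (hj.somePath_mem t).2⟩
      · have hj := hUp.joinedIn x₀ hx₀.1 x hxU
        exact ⟨hj.somePath, fun _ t => hj.somePath_mem t, fun h => absurd h hxV⟩
    · have hxV : x ∈ V := by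
        have : x ∈ U ∪ V := by rw [hUV]; trivial
        rcases this with h | h
        · exact absurd h hxU
        · exact h
      have hj := hVp.joinedIn x₀ hx₀.2 x hxV
      exact ⟨hj.somePath, fun h => absurd h hxU, fun _ t => hj.somePath_mem t⟩
  choose c hcU hcV using key
  have hpc : PathConnectedSpace X :=
    { nonempty := ⟨x₀⟩
      joined := fun x y => (⟨(c x).symm.trans (c y)⟩ : Joined x y) }
  -- short paths
  have short : ∀ {x y : X} (γ : Path x y), ((∀ t, γ t ∈ U) ∨ (∀ t, γ t ∈ V)) →
      ((c x).trans γ).Homotopic (c y) := by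
    intro x y γ h
    rcases h with h | h
    · have hx : x ∈ U := by simpa using h 0
      have hy : y ∈ U := by simpa using h 1
      exact homotopic_of_mem hU _ _ (trans_mem _ _ (hcU x hx) h) (hcU y hy)
    · have hx : x ∈ V := by simpa using h 0
      have hy : y ∈ V := by simpa using h 1
      exact homotopic_of_mem hV _ _ (trans_mem _ _ (hcV x hx) h) (hcV y hy)
  -- all paths
  have long : ∀ {x y : X} (γ : Path x y), ((c x).trans γ).Homotopic (c y) := by
    intro x y γ
    have hopen : ∀ b : Bool, IsOpen (γ ⁻¹' (if b then U else V)) := by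
      intro b
      cases b
      · simpa using hVo.preimage γ.continuous
      · simpa using hUo.preimage γ.continuous
    have hcov : univ ⊆ ⋃ b : Bool, γ ⁻¹' (if b then U else V) := by
      intro t _
      have : γ t ∈ U ∪ V := by rw [hUV]; trivial
      rcases this with h | h
      · exact mem_iUnion.2 ⟨true, by simpa using h⟩
      · exact mem_iUnion.2 ⟨false, by simpa using h⟩
    obtain ⟨t, ht0, htm, ⟨n, hn⟩, ht⟩ :=
      exists_monotone_Icc_subset_open_cover_unitInterval hopen hcov
    have ind : ∀ m : ℕ, ((c (γ (t 0))).trans (γ.subpath (t 0) (t m))).Homotopic (c (γ (t m))) := by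
      intro m
      induction m with
      | zero =>
        rw [Path.subpath_self]
        exact Path.Homotopic.trans_refl _
      | succ m ih =>
        have h1 : (γ.subpath (t 0) (t (m + 1))).Homotopic
            ((γ.subpath (t 0) (t m)).trans (γ.subpath (t m) (t (m + 1)))) :=
          ⟨(Path.Homotopy.subpathTransSubpath γ (t 0) (t m) (t (m + 1))).symm⟩
        have h2 : ((c (γ (t 0))).trans (γ.subpath (t 0) (t (m + 1)))).Homotopic
            ((c (γ (t 0))).trans ((γ.subpath (t 0) (t m)).trans (γ.subpath (t m) (t (m + 1))))) :=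
          Path.Homotopic.hcomp (Path.Homotopic.refl _) h1
        have h3 := (Path.Homotopic.trans_assoc (c (γ (t 0))) (γ.subpath (t 0) (t m))
          (γ.subpath (t m) (t (m + 1)))).symm
        have h4 : (((c (γ (t 0))).trans (γ.subpath (t 0) (t m))).trans
            (γ.subpath (t m) (t (m + 1)))).Homotopic
            ((c (γ (t m))).trans (γ.subpath (t m) (t (m + 1)))) :=
          Path.Homotopic.hcomp ih (Path.Homotopic.refl _)
        have h5 : ((c (γ (t m))).trans (γ.subpath (t m) (t (m + 1)))).Homotopic
            (c (γ (t (m + 1)))) := by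
          apply short
          obtain ⟨b, hb⟩ := ht m
          have hle : t m ≤ t (m + 1) := htm (Nat.le_succ m)
          cases b
          · right
            exact subpath_mem γ hle (fun r hr => by simpa using hb hr)
          · left
            exact subpath_mem γ hle (fun r hr => by simpa using hb hr)
        exact ((h2.trans h3).trans h4).trans h5
    have h := ind n
    rw [ht0, hn n le_rfl, Path.subpath_zero_one] at h
    have gen : ∀ (a' b' : X) (ha : a' = x) (hb : b' = y),
        ((c a').trans (γ.cast ha hb)).Homotopic (c b') → ((c x).trans γ).Homotopic (c y) := by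
      rintro a' b' rfl rfl h
      simpa using h
    exact gen _ _ γ.source γ.target h
  rw [simply_connected_iff_paths_homotopic']
  refine ⟨hpc, ?_⟩
  intro x y p q
  have h1 : ((c x).trans p).Homotopic ((c x).trans q) := (long p).trans (long q).symm
  have h2 : ((c x).symm.trans ((c x).trans p)).Homotopic ((c x).symm.trans ((c x).trans q)) :=
    Path.Homotopic.hcomp (Path.Homotopic.refl _) h1
  have h3 : ∀ r : Path x y, ((c x).symm.trans ((c x).trans r)).Homotopic r := by
    intro r
    have e1 := (Path.Homotopic.trans_assoc (c x).symm (c x) r).symm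
    have e2 : (((c x).symm.trans (c x)).trans r).Homotopic ((Path.refl x).trans r) :=
      Path.Homotopic.hcomp (Path.Homotopic.symm_trans (c x)) (Path.Homotopic.refl _)
    exact (e1.trans e2).trans (Path.Homotopic.refl_trans r)
  exact ((h3 p).symm.trans h2).trans (h3 q)

end VK

section Sphere

variable {F : Type*} [NormedAddCommGroup F] [InnerProductSpace ℝ F]

theorem eq_zero_of_neg_eq {v : F} (h : -v = v) : v = 0 := by
  have h2 : (2 : ℝ) • v = 0 := by
    rw [two_smul]
    nth_rw 1 [← h]
    simp
  rcases smul_eq_zero.1 h2 with h3 | h3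
  · norm_num at h3
  · exact h3

theorem isSimplyConnected_compl (v : sphere (0 : F) 1) :
    IsSimplyConnected ({v}ᶜ : Set (sphere (0 : F) 1)) := by
  have hv : ‖(v : F)‖ = 1 := norm_eq_of_mem_sphere v
  let e := stereographic hv
  have h1 : e.source = ({v}ᶜ : Set (sphere (0 : F) 1)) := by
    show (stereographic hv).source = _
    rw [stereographic_source]
  have h2 : e.target = univ := rfl
  have e1 : e.source ≃ₜ e.target := e.toHomeomorphSourceTarget
  have e2 : e.target ≃ₜ (univ : Set (ℝ ∙ (v : F))ᗮ) := Homeomorph.setCongr h2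
  have e3 : (univ : Set (ℝ ∙ (v : F))ᗮ) ≃ₜ (ℝ ∙ (v : F))ᗮ := Homeomorph.Set.univ _
  have e4 : e.source ≃ₜ (ℝ ∙ (v : F))ᗮ := (e1.trans e2).trans e3
  have hc : ContractibleSpace (ℝ ∙ (v : F))ᗮ := RealTopologicalVectorSpace.contractibleSpace
  have h3 : ContractibleSpace e.source := e4.contractibleSpace
  rw [← h1]
  show SimplyConnectedSpace e.source
  infer_instance

theorem isPathConnected_inter (v : sphere (0 : F) 1) (hr : 1 < Module.rank ℝ (ℝ ∙ (v : F))ᗮ) :
    IsPathConnected (({v}ᶜ ∩ {-v}ᶜ : Set (sphere (0 : F) 1))) := by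
  have hv : ‖(v : F)‖ = 1 := norm_eq_of_mem_sphere v
  let e := stereographic hv
  have h1 : e.source = ({v}ᶜ : Set (sphere (0 : F) 1)) := by
    show (stereographic hv).source = _
    rw [stereographic_source]
  have h2 : e.target = univ := rfl
  have h0 : e (-v) = 0 := stereographic_apply_neg v
  have hne : -v ∈ e.source := by
    rw [h1]
    intro h
    have h3 : -(v : F) = v := by
      have := congrArg (Subtype.val) (Set.mem_singleton_iff.1 h)
      simpa using this
    have h4 : (v : F) = 0 := eq_zero_of_neg_eq h3
    rw [h4, norm_zero] at hv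
    exact zero_ne_one hv
  have h5 : ({v}ᶜ ∩ {-v}ᶜ : Set (sphere (0 : F) 1)) = e.symm '' ({0}ᶜ) := by
    ext x
    constructor
    · rintro ⟨hx1, hx2⟩
      have hx3 : x ∈ e.source := by rw [h1]; exact hx1
      refine ⟨e x, ?_, e.left_inv hx3⟩
      intro h
      have h6 : e x = e (-v) := by rw [h0]; exact h
      exact hx2 (e.injOn hx3 hne h6)
    · rintro ⟨y, hy, rfl⟩
      have hy2 : y ∈ e.target := by rw [h2]; trivial
      have hs := e.map_target hy2
      refine ⟨by rw [h1] at hs; exact hs, ?_⟩
      intro h
      apply hy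
      have h6 : e (e.symm y) = e (-v) := by rw [Set.mem_singleton_iff.1 h]
      rw [e.right_inv hy2, h0] at h6
      exact h6
  rw [h5]
  refine (isPathConnected_compl_singleton_of_one_lt_rank hr 0).image' ?_
  have := e.continuousOn_symm
  rw [h2] at this
  exact this.mono (subset_univ _)

end Sphere

/-- S1 -/
theorem simplyConnected_sphere : SimplyConnectedSpace (sphere (0 : ℍ[ℝ]) 1) := by
  let v : sphere (0 : ℍ[ℝ]) 1 := ⟨1, by simp⟩
  have hfin : Module.finrank ℝ ℍ[ℝ] = 3 + 1 := by rw [Quaternion.finrank_eq_four]
  have : Fact (Module.finrank ℝ ℍ[ℝ] = 3 + 1) := ⟨hfin⟩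
  have hv0 : (v : ℍ[ℝ]) ≠ 0 := by
    show (1 : ℍ[ℝ]) ≠ 0
    exact one_ne_zero
  have hr : 1 < Module.rank ℝ (ℝ ∙ (v : ℍ[ℝ]))ᗮ := by
    have h := Submodule.finrank_orthogonal_span_singleton (𝕜 := ℝ) (n := 3) hv0
    rw [← Module.finrank_eq_rank, h]
    norm_num
  refine simplyConnected_of_cover (U := {v}ᶜ) (V := {-v}ᶜ) isOpen_compl_singleton
    isOpen_compl_singleton ?_ (isSimplyConnected_compl v) (isSimplyConnected_compl (-v))
    (isPathConnected_inter v hr)
  rw [← compl_inter]
  have : ({v} ∩ {-v} : Set (sphere (0 : ℍ[ℝ]) 1)) = ∅ := by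
    ext x
    simp only [mem_inter_iff, mem_singleton_iff, mem_empty_iff_false, iff_false, not_and]
    rintro rfl h
    have h3 : (v : ℍ[ℝ]) = -v := by
      have := congrArg (Subtype.val) h
      simpa using this
    exact hv0 (eq_zero_of_neg_eq h3.symm)
  rw [this, compl_empty]

end Helper99.BQ
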